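import Pool.Agent.H447R3.KuB

/-!
# The sign conjecture up to numerical equivalence
-/

set_option autoImplicit false

open Pool.Agent.H914 Pool.Agent.H914.VarClass Pool.Agent.H914.VarClass.Obj
  Pool.Agent.H914.WeilCohomology Pool.Agent.H447

universe u v

namespace Pool.Agent.Results.MP_fd35e1_ag.NumericalSign

/-- **The sign conjecture up to numerical equivalence.** The projector onto the even cohomology of
`X` is algebraic if and only if there is a cycle which has the same intersection numbers with all
cycles as the class of this projector, and which is a projector up to numerical equivalence. -/
theorem result {k : Type u} [Field k] {𝒱 : VarClass k} {ops : CycleOps 𝒱}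
    (W : WeilCohomology.{u, v} ops) (X : 𝒱.Obj) : SignStd W X ↔ SignNum W X :=
  sign_iff_num

end Pool.Agent.Results.MP_fd35e1_ag.NumericalSign
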