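import Pool.Agent.TH133.PW.Ev

/-!
# The sign conjecture for `X` and the separation of single classes

Let `W` be a Weil cohomology theory with coefficient field `K`, for example crystalline cohomology
(no Lefschetz axiom is used), and `X` smooth proper of dimension `n`. The following are equivalent:

* the projector onto the even cohomology of `X` is induced by a cycle on `X × X` with RATIONAL
  coefficients;
* it is a `K`-linear combination of algebraic correspondences;
* for every class `y` of even degree and every class `y'` of odd degree there is a `K`-linear
  combination `φ` of algebraic correspondences, which may depend on `y` and `y'`, with `φ(y) = y`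
  and `φ(y') = 0`;
* whenever `y × w + y' × w'` is orthogonal to all algebraic cycles of codimension `n` on `X × X`,
  for classes `y`, `w` of even degrees `i`, `2n - i` and `y'`, `w'` of odd degrees `j`, `2n - j`, then
  `tr(y w) = 0`;
* every subspace of `H(X)` (graded or not) which is stable under the algebraic correspondences of
  degree zero is stable under the projector onto the even cohomology.
-/

open Pool.Agent.H914 Pool.Agent.H914.VarClass Pool.Agent.H914.VarClass.Obj
  Pool.Agent.H914.WeilCohomology Pool.Agent.TH133.PW Pool.Agent.H447

universe u v

namespace Pool.Agent.Results.MP_fd35e1_ag.PointwiseParity

/-- **The sign conjecture from the separation of single classes.** -/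
theorem result {k : Type u} [Field k] {𝒱 : VarClass k} {ops : CycleOps 𝒱}
    (W : WeilCohomology.{u, v} ops) (X : 𝒱.Obj) :
    [SignStd W X, EvenProjInSpan (W.gr X) (cycleOperators W X X.dim),
      SeparatesParity (W.gr X) (cycleOperators W X X.dim), DetectsParity W X,
      StableParity (W.gr X) (cycleOperators W X X.dim)].TFAE :=
  sign_tfae W X

end Pool.Agent.Results.MP_fd35e1_ag.PointwiseParity
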