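import Pool.Agent.V11106.SH.Along

/-!
# The standard conjecture `C⁺` for `X` from the products `X × T`, up to errors of small rank

Let `W` be a Weil cohomology theory (coefficients `K` of characteristic `0`, without the hard
Lefschetz axiom) on a class of varieties closed under products, which contains, for every `N`, a
surface with algebraic cohomology and `N` independent divisor classes (a successive blow-up of the
projective plane in rational points).

**One variety.** Let `X` be a variety. If on the products `X × T` with surfaces `T` the projector
onto the even cohomology is a combination, with coefficients in `K`, of algebraic correspondences up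
to errors whose rank is `o(b)`, where `b` is the sum of the Betti numbers of `X × T`, then
the projector onto the even cohomology of `X` is induced by an algebraic cycle with rational
coefficients: `C⁺(X)` is true.

**All varieties.** Hence the conjecture for all varieties is equivalent to errors whose rank is
bounded along the products of each variety `X` with surfaces (by a number depending on `X`), and to
errors whose rank is `o(b)` along these products.
-/

open CategoryTheory AlgebraicGeometry

universe u v

namespace Pool.Agent.Results.MP_fd35e1_ag.SublinearDefects

open Pool.Agent.H914 VarClass Obj WeilCohomology Pool.Agent.V11106.LB Pool.Agent.V11106.SH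
  Pool.Agent.TH133.PW Pool.Agent.H447

variable {k : Type u} [Field k] {𝒱 : VarClass k} {ops : CycleOps 𝒱}

theorem result (W : WeilCohomology.{u, v} ops) (hT : HasRationalSurfaces W) :
    (∀ X : 𝒱.Obj, SignSublinearAlong W X → SignStd W X) ∧
    [∀ X : 𝒱.Obj, SignStd W X, ∀ X : 𝒱.Obj, SignBoundedAlong W X,
      ∀ X : 𝒱.Obj, SignSublinearAlong W X].TFAE :=
  signAlong_main hT

end Pool.Agent.Results.MP_fd35e1_ag.SublinearDefects
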